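import Pool.Agent.MP_a9a483_co.Defs

namespace Pool.Agent.MP_a9a483_co

open SimpleGraph

/-- Vertices of a double split graph. -/
abbrev DV (m n : ℕ) : Type := (Fin m × Bool) ⊕ (Fin n × Bool)

/-- The double split graph of a sign matrix. -/
def DS {m n : ℕ} (M : Fin m → Fin n → Bool) : SimpleGraph (DV m n) where
  Adj u v :=
    match u, v with
    | .inl p, .inl q => p.1 = q.1 ∧ p.2 ≠ q.2
    | .inr p, .inr q => p.1 ≠ q.1
    | .inl p, .inr q => (p.2 != q.2) = M p.1 q.1
    | .inr q, .inl p => (p.2 != q.2) = M p.1 q.1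
  symm := ⟨by
    rintro (⟨i, s⟩ | ⟨i, s⟩) (⟨j, t⟩ | ⟨j, t⟩) h
    · exact ⟨h.1.symm, h.2.symm⟩
    · exact h
    · exact h
    · exact Ne.symm h⟩
  loopless := ⟨by
    rintro (⟨i, s⟩ | ⟨i, s⟩) h
    · exact h.2 rfl
    · exact h rfl⟩

variable {m n : ℕ} {M : Fin m → Fin n → Bool}

@[simp] lemma adj_ll {i i' : Fin m} {s s' : Bool} :
    (DS M).Adj (.inl (i, s)) (.inl (i', s')) ↔ i = i' ∧ s ≠ s' := Iff.rfl

@[simp] lemma adj_rr {j j' : Fin n} {s s' : Bool} :
    (DS M).Adj (.inr (j, s)) (.inr (j', s')) ↔ j ≠ j' := Iff.rfl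

@[simp] lemma adj_lr {i : Fin m} {j : Fin n} {s t : Bool} :
    (DS M).Adj (.inl (i, s)) (.inr (j, t)) ↔ (s != t) = M i j := Iff.rfl

@[simp] lemma adj_rl {i : Fin m} {j : Fin n} {s t : Bool} :
    (DS M).Adj (.inr (j, t)) (.inl (i, s)) ↔ (s != t) = M i j := Iff.rfl

/-- complement of a double split graph is a double split graph -/
def complIso (M : Fin m → Fin n → Bool) :
    (DS M)ᶜ ≃g DS (fun j i => !(M i j)) where
  toEquiv := Equiv.sumComm _ _
  map_rel_iff' := by
    rintro (⟨i, s⟩ | ⟨i, s⟩) (⟨j, t⟩ | ⟨j, t⟩)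
    · simp only [Equiv.sumComm_apply, Sum.swap_inl, adj_rr, compl_adj, adj_ll]
      constructor
      · intro h
        exact ⟨fun h' => h (by cases h'; rfl), fun h' => h h'.1⟩
      · rintro ⟨h1, h2⟩ h3
        subst h3
        apply h2
        refine ⟨rfl, fun h3 => h1 ?_⟩
        rw [h3]
    · simp only [Equiv.sumComm_apply, Sum.swap_inl, Sum.swap_inr, adj_rl, compl_adj, adj_lr]
      cases s <;> cases t <;> cases M i j <;> simp
    · simp only [Equiv.sumComm_apply, Sum.swap_inl, Sum.swap_inr, adj_rl, compl_adj, adj_lr]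
      cases s <;> cases t <;> cases M j i <;> simp
    · simp only [Equiv.sumComm_apply, Sum.swap_inr, adj_rr, compl_adj, adj_ll]
      constructor
      · rintro ⟨rfl, h⟩
        exact ⟨fun h' => h (by cases h'; rfl), fun h' => h' rfl⟩
      · rintro ⟨h1, h2⟩
        have h3 : i = j := by
          by_contra h
          exact h2 h
        subst h3
        refine ⟨rfl, fun h3 => h1 ?_⟩
        rw [h3]

/-! ### cycles -/

lemma cyc_adj {n : ℕ} (hn : 3 ≤ n) (u v : Fin n) (h : u.val < v.val) :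
    (cycleGraph n).Adj u v ↔ v.val = u.val + 1 ∨ (u.val = 0 ∧ v.val + 1 = n) := by
  rw [cycleGraph_adj']
  rw [Fin.val_sub, Fin.val_sub]
  have hu := u.isLt
  have hv := v.isLt
  have e1 : (n - v.val + u.val) % n = n - v.val + u.val := Nat.mod_eq_of_lt (by omega)
  have e2 : (n - u.val + v.val) % n = v.val - u.val := by
    have : n - u.val + v.val = (v.val - u.val) + n := by omega
    rw [this, Nat.add_mod_right, Nat.mod_eq_of_lt (by omega)]
  rw [e1, e2]
  omega

/-- rotation of a cycle embedding -/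
lemma exists_rot {n : ℕ} {V : Type} {G : SimpleGraph V} (f : cycleGraph (n + 2) ↪g G)
    (a : Fin (n + 2)) : ∃ g : cycleGraph (n + 2) ↪g G, ∀ i, g i = f (i + a) := by
  refine ⟨⟨⟨fun i => f (i + a), ?_⟩, ?_⟩, fun i => rfl⟩
  · intro i j h
    exact add_right_cancel (f.injective h)
  · intro i j
    show G.Adj (f (i + a)) (f (j + a)) ↔ _
    rw [f.map_adj_iff, cycleGraph_adj, cycleGraph_adj]
    simp [add_sub_add_right_eq_sub]

/-- being on the `C`-side -/
def isC (v : DV m n) : Prop := ∃ p, v = .inr p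

lemma not_isC {v : DV m n} (h : ¬ isC v) : ∃ p, v = .inl p := by
  rcases v with p | p
  · exact ⟨p, rfl⟩
  · exact absurd ⟨p, rfl⟩ h

/-- three consecutive vertices of an induced path/cycle: one is on the `C`-side -/
lemma window {u v w : DV m n} (h1 : (DS M).Adj u v) (h2 : (DS M).Adj v w) (h3 : u ≠ w) :
    isC u ∨ isC v ∨ isC w := by
  rcases u with ⟨i, s⟩ | p
  · rcases v with ⟨j, t⟩ | p
    · rcases w with ⟨k, r⟩ | p
      · exfalso
        simp only [adj_ll] at h1 h2
        apply h3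
        obtain ⟨rfl, h1⟩ := h1
        obtain ⟨rfl, h2⟩ := h2
        congr 2
        cases s <;> cases t <;> cases r <;> simp_all
      · exact Or.inr (Or.inr ⟨p, rfl⟩)
    · exact Or.inr (Or.inl ⟨p, rfl⟩)
  · exact Or.inl ⟨p, rfl⟩

/-- two non-neighbours of a `C`-vertex on the `C`-side coincide -/
lemma mate_unique {u v w : DV m n} (hu : isC u) (hv : isC v) (hw : isC w)
    (h1 : ¬ (DS M).Adj u v) (h2 : ¬ (DS M).Adj u w) (h3 : u ≠ v) (h4 : u ≠ w) : v = w := by
  obtain ⟨⟨i, s⟩, rfl⟩ := hu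
  obtain ⟨⟨j, t⟩, rfl⟩ := hv
  obtain ⟨⟨k, r⟩, rfl⟩ := hw
  simp only [adj_rr, ne_eq, not_not] at h1 h2
  subst h1
  subst h2
  congr 2
  cases s <;> cases t <;> cases r <;> simp_all

/-- nonadjacent `C`-vertices: every `A`-vertex sees exactly one -/
lemma mates_C {u v w : DV m n} (hu : isC u) (hv : isC v) (hw : ¬ isC w)
    (h1 : ¬ (DS M).Adj u v) (h3 : u ≠ v) : (DS M).Adj w u ↔ ¬ (DS M).Adj w v := by
  obtain ⟨⟨i, s⟩, rfl⟩ := hu
  obtain ⟨⟨j, t⟩, rfl⟩ := hv
  obtain ⟨⟨k, r⟩, rfl⟩ := not_isC hw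
  simp only [adj_rr, ne_eq, not_not] at h1
  subst h1
  have : t = !s := by cases s <;> cases t <;> simp_all
  subst this
  simp only [adj_lr]
  cases s <;> cases r <;> cases M k i <;> simp

/-- adjacent `A`-vertices: every `C`-vertex sees exactly one -/
lemma mates_A {u v w : DV m n} (hu : ¬ isC u) (hv : ¬ isC v) (hw : isC w)
    (h1 : (DS M).Adj u v) : (DS M).Adj w u ↔ ¬ (DS M).Adj w v := by
  obtain ⟨⟨i, s⟩, rfl⟩ := not_isC hu
  obtain ⟨⟨j, t⟩, rfl⟩ := not_isC hv
  obtain ⟨⟨k, r⟩, rfl⟩ := hw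
  simp only [adj_ll, ne_eq] at h1
  obtain ⟨rfl, h1⟩ := h1
  have : t = !s := by cases s <;> cases t <;> simp_all
  subst this
  simp only [adj_rl]
  cases s <;> cases r <;> cases M i k <;> simp

lemma no_odd_hole {N : ℕ} (hN : 5 ≤ N) (hodd : Odd N) : IsEmpty (cycleGraph N ↪g DS M) := by
  constructor
  intro f
  -- adjacency along the cycle in terms of values
  have key : ∀ (g : cycleGraph N ↪g DS M) (a b : ℕ) (ha : a < N) (hb : b < N), a < b →
      ((DS M).Adj (g ⟨a, ha⟩) (g ⟨b, hb⟩) ↔ (b = a + 1 ∨ (a = 0 ∧ b + 1 = N))) := by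
    intro g a b ha hb hab
    rw [g.map_adj_iff, cyc_adj (by omega) _ _ hab]
  have keyne : ∀ (g : cycleGraph N ↪g DS M) (a b : ℕ) (ha : a < N) (hb : b < N), a < b →
      g ⟨a, ha⟩ ≠ g ⟨b, hb⟩ := by
    intro g a b ha hb hab h
    have := g.injective h
    simp only [Fin.mk.injEq] at this
    omega
  have win : ∀ (g : cycleGraph N ↪g DS M) (a : ℕ) (ha : a + 2 < N),
      isC (g ⟨a, by omega⟩) ∨ isC (g ⟨a + 1, by omega⟩) ∨ isC (g ⟨a + 2, ha⟩) := by
    intro g a ha
    apply window (M := M)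
    · rw [key g a (a + 1) _ _ (by omega)]; omega
    · rw [key g (a + 1) (a + 2) _ _ (by omega)]; omega
    · exact keyne g _ _ _ _ (by omega)
  -- rotate such that the vertex 0 is in C
  obtain ⟨g, hg⟩ : ∃ g : cycleGraph N ↪g DS M, isC (g ⟨0, by omega⟩) := by
    obtain ⟨N', rfl⟩ : ∃ N', N = N' + 2 := ⟨N - 2, by omega⟩
    rcases win f 0 (by omega) with h | h | h
    · exact ⟨f, h⟩
    · obtain ⟨g, hg⟩ := exists_rot f ⟨1, by omega⟩
      refine ⟨g, ?_⟩
      rw [hg]
      convert h using 2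
      ext
      simp
    · obtain ⟨g, hg⟩ := exists_rot f ⟨2, by omega⟩
      refine ⟨g, ?_⟩
      rw [hg]
      convert h using 2
      ext
      simp
  have ne0 : ∀ (b : ℕ) (hb : b < N), 2 ≤ b → b + 1 < N →
      ¬ (DS M).Adj (g ⟨0, by omega⟩) (g ⟨b, hb⟩) := by
    intro b hb h1 h2
    rw [key g 0 b _ _ (by omega)]
    omega
  -- at most one C vertex among the non-neighbours of 0
  have uniq : ∀ (b c : ℕ) (hb : b < N) (hc : c < N), 2 ≤ b → b + 1 < N → 2 ≤ c → c + 1 < N →
      isC (g ⟨b, hb⟩) → isC (g ⟨c, hc⟩) → b = c := by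
    intro b c hb hc h1 h2 h3 h4 h5 h6
    have := mate_unique hg h5 h6 (ne0 b hb h1 h2) (ne0 c hc h3 h4)
      (keyne g _ _ _ _ (by omega)) (keyne g _ _ _ _ (by omega))
    have := g.injective this
    simpa using this
  obtain ⟨r, hr⟩ := hodd
  by_cases h9 : 9 ≤ N
  · rcases win g 2 (by omega) with h | h | h <;> rcases win g 5 (by omega) with h' | h' | h' <;>
    · have := uniq _ _ _ _ (by omega) (by omega) (by omega) (by omega) h h'
      omega
  have hN' : N = 5 ∨ N = 7 := by omega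
  rcases hN' with rfl | rfl
  · -- N = 5
    by_cases c2 : isC (g ⟨2, by omega⟩)
    · -- 0 and 2 are mates
      have c3 : ¬ isC (g ⟨3, by omega⟩) := fun h => by
        have := uniq 2 3 (by omega) (by omega) (by omega) (by omega) (by omega) (by omega) c2 h
        omega
      have m02 : ¬ (DS M).Adj (g ⟨0, by omega⟩) (g ⟨2, by omega⟩) :=
        ne0 2 (by omega) (by omega) (by omega)
      have c1 : isC (g ⟨1, by omega⟩) := by
        by_contra h
        have := mates_C (w := g ⟨1, by omega⟩) hg c2 h m02 (keyne g _ _ _ _ (by omega))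
        have a1 : (DS M).Adj (g ⟨1, by omega⟩) (g ⟨0, by omega⟩) :=
          ((key g 0 1 _ _ (by omega)).2 (by omega)).symm
        have a2 : (DS M).Adj (g ⟨1, by omega⟩) (g ⟨2, by omega⟩) :=
          ((key g 1 2 _ _ (by omega)).2 (by omega))
        exact this.1 a1 a2
      have c4 : ¬ isC (g ⟨4, by omega⟩) := fun h => by
        have n24 : ¬ (DS M).Adj (g ⟨2, by omega⟩) (g ⟨4, by omega⟩) := by
          rw [key g 2 4 _ _ (by omega)]; omega
        have := mate_unique c2 hg h (fun h => m02 h.symm) n24 (keyne g 0 2 _ _ (by omega)).symm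
          (keyne g 2 4 _ _ (by omega))
        exact keyne g 0 4 _ _ (by omega) this
      have a34 : (DS M).Adj (g ⟨3, by omega⟩) (g ⟨4, by omega⟩) :=
        ((key g 3 4 _ _ (by omega)).2 (by omega))
      have n13 : ¬ (DS M).Adj (g ⟨1, by omega⟩) (g ⟨3, by omega⟩) := by
        rw [key g 1 3 _ _ (by omega)]; omega
      have n14 : ¬ (DS M).Adj (g ⟨1, by omega⟩) (g ⟨4, by omega⟩) := by
        rw [key g 1 4 _ _ (by omega)]; omega
      have := mates_A c3 c4 c1 a34
      exact n13 (this.2 n14)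
    · by_cases c3 : isC (g ⟨3, by omega⟩)
      · have m03 : ¬ (DS M).Adj (g ⟨0, by omega⟩) (g ⟨3, by omega⟩) :=
          ne0 3 (by omega) (by omega) (by omega)
        have c4 : isC (g ⟨4, by omega⟩) := by
          by_contra h
          have := mates_C (w := g ⟨4, by omega⟩) hg c3 h m03 (keyne g _ _ _ _ (by omega))
          have a1 : (DS M).Adj (g ⟨4, by omega⟩) (g ⟨0, by omega⟩) :=
            ((key g 0 4 _ _ (by omega)).2 (by omega)).symm
          have a2 : (DS M).Adj (g ⟨4, by omega⟩) (g ⟨3, by omega⟩) :=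
            ((key g 3 4 _ _ (by omega)).2 (by omega)).symm
          exact this.1 a1 a2
        have c1 : ¬ isC (g ⟨1, by omega⟩) := fun h => by
          have n13 : ¬ (DS M).Adj (g ⟨3, by omega⟩) (g ⟨1, by omega⟩) := by
            intro h'
            rw [adj_comm, key g 1 3 _ _ (by omega)] at h'; omega
          have := mate_unique c3 hg h (fun h => m03 h.symm) n13 (keyne g 0 3 _ _ (by omega)).symm
            (keyne g 1 3 _ _ (by omega)).symm
          exact keyne g 0 1 _ _ (by omega) this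
        have a12 : (DS M).Adj (g ⟨1, by omega⟩) (g ⟨2, by omega⟩) :=
          ((key g 1 2 _ _ (by omega)).2 (by omega))
        have n41 : ¬ (DS M).Adj (g ⟨4, by omega⟩) (g ⟨1, by omega⟩) := by
          rw [adj_comm, key g 1 4 _ _ (by omega)]; omega
        have n42 : ¬ (DS M).Adj (g ⟨4, by omega⟩) (g ⟨2, by omega⟩) := by
          rw [adj_comm, key g 2 4 _ _ (by omega)]; omega
        have := mates_A c1 c2 c4 a12
        exact n41 (this.2 n42)
      · have a23 : (DS M).Adj (g ⟨2, by omega⟩) (g ⟨3, by omega⟩) :=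
          ((key g 2 3 _ _ (by omega)).2 (by omega))
        have := mates_A c2 c3 hg a23
        exact ne0 2 (by omega) (by omega) (by omega)
          (this.2 (ne0 3 (by omega) (by omega) (by omega)))
  · -- N = 7
    by_cases c3 : isC (g ⟨3, by omega⟩)
    · have c4 : ¬ isC (g ⟨4, by omega⟩) := fun h => by
        have := uniq 3 4 (by omega) (by omega) (by omega) (by omega) (by omega) (by omega) c3 h
        omega
      have c5 : ¬ isC (g ⟨5, by omega⟩) := fun h => by
        have := uniq 3 5 (by omega) (by omega) (by omega) (by omega) (by omega) (by omega) c3 h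
        omega
      have c6 : isC (g ⟨6, by omega⟩) := by
        rcases win g 4 (by omega) with h | h | h
        · exact absurd h c4
        · exact absurd h c5
        · exact h
      have n36 : ¬ (DS M).Adj (g ⟨3, by omega⟩) (g ⟨6, by omega⟩) := by
        rw [key g 3 6 _ _ (by omega)]; omega
      have := mate_unique c3 hg c6 (fun h => ne0 3 (by omega) (by omega) (by omega) h.symm) n36
        (keyne g 0 3 _ _ (by omega)).symm (keyne g 3 6 _ _ (by omega))
      exact keyne g 0 6 _ _ (by omega) this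
    · have c4 : isC (g ⟨4, by omega⟩) := by
        rcases win g 2 (by omega) with h | h | h
        · rcases win g 3 (by omega) with h' | h' | h'
          · exact absurd h' c3
          · exact h'
          · have := uniq 2 5 (by omega) (by omega) (by omega) (by omega) (by omega) (by omega) h h'
            omega
        · exact absurd h c3
        · exact h
      have c2 : ¬ isC (g ⟨2, by omega⟩) := fun h => by
        have := uniq 2 4 (by omega) (by omega) (by omega) (by omega) (by omega) (by omega) h c4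
        omega
      have c1 : isC (g ⟨1, by omega⟩) := by
        rcases win g 1 (by omega) with h | h | h
        · exact h
        · exact absurd h c2
        · exact absurd h c3
      have n14 : ¬ (DS M).Adj (g ⟨4, by omega⟩) (g ⟨1, by omega⟩) := by
        rw [adj_comm, key g 1 4 _ _ (by omega)]; omega
      have := mate_unique c4 hg c1 (fun h => ne0 4 (by omega) (by omega) (by omega) h.symm) n14
        (keyne g 0 4 _ _ (by omega)).symm (keyne g 1 4 _ _ (by omega)).symm
      exact keyne g 0 1 _ _ (by omega) this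

lemma berge (M : Fin m → Fin n → Bool) : IsBerge (DS M) := by
  intro N hN hodd
  refine ⟨no_odd_hole hN hodd, ⟨fun f => ?_⟩⟩
  have h := no_odd_hole (M := fun j i => !(M i j)) hN hodd
  apply h.false
  refine (complIso M).toEmbedding.comp ⟨f.toEmbedding, ?_⟩
  intro a b
  rw [compl_adj]
  show f a ≠ f b ∧ ¬ (DS M).Adj (f a) (f b) ↔ _
  rw [f.map_adj_iff, compl_adj]
  constructor
  · rintro ⟨h1, h2⟩
    by_contra h3
    exact h2 ⟨fun h4 => h1 (by rw [h4]), h3⟩
  · intro h1
    exact ⟨fun h2 => h1.ne (f.injective h2), fun h2 => h2.2 h1⟩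

/-! ### no even pair -/

lemma not_evenPair_of_adj {V : Type} {G : SimpleGraph V} {x y : V} (h : G.Adj x y) :
    ¬ IsEvenPair G x y := by
  rintro ⟨_, h2⟩
  have hne := h.ne
  let p : pathGraph (1 + 1) ↪g G :=
    { toFun := ![x, y]
      inj' := by
        intro i j hij
        fin_cases i <;> fin_cases j <;> simp_all
      map_rel_iff' := by
        intro i j
        show G.Adj (![x, y] i) (![x, y] j) ↔ _
        rw [pathGraph_adj]
        fin_cases i <;> fin_cases j <;> simp [h, h.symm] }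
  have := h2 1 p rfl rfl
  exact absurd this (by decide)

lemma not_evenPair_of_path3 {V : Type} {G : SimpleGraph V} {x p q y : V} (hxy : x ≠ y)
    (h1 : G.Adj x p) (h2 : G.Adj p q) (h3 : G.Adj q y) (n1 : ¬ G.Adj x q) (n2 : ¬ G.Adj p y)
    (n3 : ¬ G.Adj x y) : ¬ IsEvenPair G x y := by
  rintro ⟨_, hh⟩
  have e1 := h1.ne
  have e2 := h2.ne
  have e3 := h3.ne
  have e4 : x ≠ q := by rintro rfl; exact n3 h3
  have e5 : p ≠ y := by rintro rfl; exact n3 h1
  let f : pathGraph (3 + 1) ↪g G :=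
    { toFun := ![x, p, q, y]
      inj' := by
        intro i j hij
        fin_cases i <;> fin_cases j <;> simp_all
      map_rel_iff' := by
        intro i j
        show G.Adj (![x, p, q, y] i) (![x, p, q, y] j) ↔ _
        rw [pathGraph_adj]
        have n1' : ¬ G.Adj q x := fun h => n1 h.symm
        have n2' : ¬ G.Adj y p := fun h => n2 h.symm
        have n3' : ¬ G.Adj y x := fun h => n3 h.symm
        fin_cases i <;> fin_cases j <;>
          simp [h1, h1.symm, h2, h2.symm, h3, h3.symm, n1, n2, n3, n1', n2', n3'] }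
  have := hh 3 f rfl rfl
  exact absurd this (by decide)

lemma evenPairFree (hn : 2 ≤ n) (hm : 1 ≤ m)
    (hrow : ∀ i i', i ≠ i' → ∀ b : Bool, ∃ j, M i j ≠ (M i' j != b)) :
    EvenPairFree (DS M) := by
  intro x y hxy
  by_cases hadj : (DS M).Adj x y
  · exact not_evenPair_of_adj hadj hxy
  have hne := hxy.1
  revert hxy
  rcases x with ⟨i, s⟩ | ⟨i, s⟩ <;> rcases y with ⟨j, t⟩ | ⟨j, t⟩
  · -- both in A
    have hij : i ≠ j := by
      rintro rfl
      apply hadj
      simp only [adj_ll, true_and]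
      rintro rfl
      exact hne rfl
    obtain ⟨k, hk⟩ := hrow i j hij (s != t)
    -- the neighbour of `y` in pair `k`
    have hy : (DS M).Adj (.inr (k, (t != M j k))) (.inl (j, t)) := by
      simp only [adj_rl]
      cases t <;> cases M j k <;> rfl
    have hx : ¬ (DS M).Adj (.inl (i, s)) (.inr (k, (t != M j k))) := by
      simp only [adj_lr]
      intro h
      apply hk
      rw [← h]
      cases s <;> cases t <;> cases M j k <;> rfl
    refine not_evenPair_of_path3 (p := .inl (i, !s)) (q := .inr (k, (t != M j k))) hne ?_ ?_ hy hx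
      ?_ hadj
    · simp
    · simp only [adj_lr] at hx ⊢
      revert hx
      cases s <;> cases t <;> cases M j k <;> cases M i k <;> simp
    · simp [hij]
  · -- x in A, y in C
    obtain ⟨k, hk⟩ : ∃ k : Fin n, k ≠ j := by
      have : Nontrivial (Fin n) := Fin.nontrivial_iff_two_le.2 hn
      exact exists_ne j
    refine not_evenPair_of_path3 (p := .inr (j, !t)) (q := .inr (k, (s == M i k))) hne ?_ ?_ ?_ ?_
      ?_ hadj
    · simp only [adj_lr] at hadj ⊢
      revert hadj
      cases s <;> cases t <;> cases M i j <;> simp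
    · simp [hk.symm]
    · simp [hk]
    · simp only [adj_lr]
      cases s <;> cases M i k <;> simp
    · simp
  · -- x in C, y in A
    obtain ⟨k, hk⟩ : ∃ k : Fin n, k ≠ i := by
      have : Nontrivial (Fin n) := Fin.nontrivial_iff_two_le.2 hn
      exact exists_ne i
    refine not_evenPair_of_path3 (p := .inr (k, (t == M j k))) (q := .inr (i, !s)) hne ?_ ?_ ?_ ?_
      ?_ hadj
    · simp [hk.symm]
    · simp [hk]
    · simp only [adj_rl] at hadj ⊢
      revert hadj
      cases s <;> cases t <;> cases M j i <;> simp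
    · simp
    · simp only [adj_rl]
      cases t <;> cases M j k <;> simp
  · -- both in C
    have hij : i = j := by
      by_contra h
      exact hadj h
    subst hij
    have hst : t = !s := by
      cases s <;> cases t <;> simp_all
    subst hst
    let k : Fin m := ⟨0, hm⟩
    refine not_evenPair_of_path3 (p := .inl (k, (s != M k i))) (q := .inl (k, !(s != M k i)))
      hne ?_ ?_ ?_ ?_ ?_ hadj
    · simp only [adj_rl]
      cases s <;> cases M k i <;> rfl
    · simp
    · simp only [adj_lr]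
      cases s <;> cases M k i <;> rfl
    · simp only [adj_rl]
      cases s <;> cases M k i <;> simp
    · simp only [adj_lr]
      cases s <;> cases M k i <;> simp

/-! ### line graphs -/

/-- line graphs of bipartite graphs contain no diamond -/
lemma not_lineGraph_of_diamond {V : Type} {G : SimpleGraph V} {a b c d : V} (hab : a ≠ b)
    (nab : ¬ G.Adj a b) (hac : G.Adj a c) (had : G.Adj a d) (hbc : G.Adj b c) (hbd : G.Adj b d)
    (hcd : G.Adj c d) : ¬ IsLineGraphOfBipartite G := by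
  rintro ⟨W, H, hH, ⟨φ⟩⟩
  obtain ⟨col⟩ := hH
  have key : ∀ e : V, G.Adj e c → G.Adj e d → ∀ x, x ∈ (φ c : Sym2 W) → x ∈ (φ d : Sym2 W) →
      x ∈ (φ e : Sym2 W) := by
    intro e hec hed x hxc hxd
    have h1 := (φ.map_adj_iff).2 hec
    have h2 := (φ.map_adj_iff).2 hed
    have h3 := (φ.map_adj_iff).2 hcd
    rw [lineGraph_adj_iff_exists] at h1 h2 h3
    obtain ⟨_, y, hye, hyc⟩ := h1
    obtain ⟨_, z, hze, hzd⟩ := h2
    by_contra hx
    have hxy : x ≠ y := by rintro rfl; exact hx hye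
    have hxz : x ≠ z := by rintro rfl; exact hx hze
    have ec : (φ c : Sym2 W) = s(x, y) := (Sym2.mem_and_mem_iff hxy).1 ⟨hxc, hyc⟩
    have ed : (φ d : Sym2 W) = s(x, z) := (Sym2.mem_and_mem_iff hxz).1 ⟨hxd, hzd⟩
    have hyz : y ≠ z := by
      rintro rfl
      exact h3.1 (Subtype.ext (ec.trans ed.symm))
    have ee : (φ e : Sym2 W) = s(y, z) := (Sym2.mem_and_mem_iff hyz).1 ⟨hye, hze⟩
    have a1 : H.Adj x y := by
      have := (φ c).2
      rw [ec] at this
      exact this
    have a2 : H.Adj x z := by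
      have := (φ d).2
      rw [ed] at this
      exact this
    have a3 : H.Adj y z := by
      have := (φ e).2
      rw [ee] at this
      exact this
    have c1 := col.valid a1
    have c2 := col.valid a2
    have c3 := col.valid a3
    revert c1 c2 c3
    generalize col x = p
    generalize col y = q
    generalize col z = r
    revert p q r
    decide
  have h3 := (φ.map_adj_iff).2 hcd
  rw [lineGraph_adj_iff_exists] at h3
  obtain ⟨_, x, hxc, hxd⟩ := h3
  have h1 := key a hac had x hxc hxd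
  have h2 := key b hbc hbd x hxc hxd
  apply nab
  rw [← φ.map_adj_iff, lineGraph_adj_iff_exists]
  exact ⟨fun h => hab (φ.injective h), x, h1, h2⟩

lemma not_lineGraph (hn : 3 ≤ n) : ¬ IsLineGraphOfBipartite (DS M) := by
  apply not_lineGraph_of_diamond (a := .inr (⟨0, by omega⟩, false))
    (b := .inr (⟨0, by omega⟩, true)) (c := .inr (⟨1, by omega⟩, false))
    (d := .inr (⟨2, by omega⟩, false))
  all_goals simp

lemma IsLineGraphOfBipartite.of_iso {V V' : Type} {G : SimpleGraph V} {G' : SimpleGraph V'}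
    (e : G ≃g G') (h : IsLineGraphOfBipartite G) : IsLineGraphOfBipartite G' := by
  obtain ⟨W, H, hH, ⟨φ⟩⟩ := h
  exact ⟨W, H, hH, ⟨e.symm.trans φ⟩⟩

/-! ### 2-joins -/

/-- weak consequences of a 2-join, symmetric in the sides and in the two classes -/
structure WTJ {V : Type} (G : SimpleGraph V) (V₁ V₂ A₁ B₁ A₂ B₂ : Set V) : Prop where
  union : ∀ x, x ∈ V₁ ∨ x ∈ V₂
  disj : ∀ x, x ∈ V₁ → x ∈ V₂ → False
  a1 : A₁ ⊆ V₁
  b1 : B₁ ⊆ V₁
  a2 : A₂ ⊆ V₂
  b2 : B₂ ⊆ V₂
  ab1 : ∀ x, x ∈ A₁ → x ∈ B₁ → False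
  ab2 : ∀ x, x ∈ A₂ → x ∈ B₂ → False
  na1 : A₁.Nonempty
  nb1 : B₁.Nonempty
  na2 : A₂.Nonempty
  nb2 : B₂.Nonempty
  adj : ∀ x ∈ V₁, ∀ y ∈ V₂, G.Adj x y ↔ (x ∈ A₁ ∧ y ∈ A₂) ∨ (x ∈ B₁ ∧ y ∈ B₂)
  k1 : V₁ ⊆ A₁ ∪ B₁ → ∃ a ∈ A₁, ∃ b ∈ B₁, G.Adj a b ∧ ∃ c ∈ V₁, c ≠ a ∧ c ≠ b
  k2 : V₂ ⊆ A₂ ∪ B₂ → ∃ a ∈ A₂, ∃ b ∈ B₂, G.Adj a b ∧ ∃ c ∈ V₂, c ≠ a ∧ c ≠ b

variable {V : Type} {G : SimpleGraph V} {V₁ V₂ A₁ B₁ A₂ B₂ : Set V}

lemma WTJ.swapSides (h : WTJ G V₁ V₂ A₁ B₁ A₂ B₂) : WTJ G V₂ V₁ A₂ B₂ A₁ B₁ where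
  union x := (h.union x).symm
  disj x h1 h2 := h.disj x h2 h1
  a1 := h.a2
  b1 := h.b2
  a2 := h.a1
  b2 := h.b1
  ab1 := h.ab2
  ab2 := h.ab1
  na1 := h.na2
  nb1 := h.nb2
  na2 := h.na1
  nb2 := h.nb1
  adj x hx y hy := by
    rw [G.adj_comm, h.adj y hy x hx]
    tauto
  k1 := h.k2
  k2 := h.k1

lemma WTJ.swapClasses (h : WTJ G V₁ V₂ A₁ B₁ A₂ B₂) : WTJ G V₁ V₂ B₁ A₁ B₂ A₂ where
  union := h.union
  disj := h.disj
  a1 := h.b1
  b1 := h.a1
  a2 := h.b2
  b2 := h.a2
  ab1 x h1 h2 := h.ab1 x h2 h1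
  ab2 x h1 h2 := h.ab2 x h2 h1
  na1 := h.nb1
  nb1 := h.na1
  na2 := h.nb2
  nb2 := h.na2
  adj x hx y hy := by
    rw [h.adj x hx y hy]
    tauto
  k1 hs := by
    obtain ⟨a, ha, b, hb, hab, c, hc, hca, hcb⟩ := h.k1 (by rwa [Set.union_comm])
    exact ⟨b, hb, a, ha, hab.symm, c, hc, hcb, hca⟩
  k2 hs := by
    obtain ⟨a, ha, b, hb, hab, c, hc, hca, hcb⟩ := h.k2 (by rwa [Set.union_comm])
    exact ⟨b, hb, a, ha, hab.symm, c, hc, hcb, hca⟩

/-- the induced graph on an edge is a path -/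
lemma nonempty_iso_of_edge {a b : V} (hab : G.Adj a b) {S : Set V}
    (hS : ∀ c, c ∈ S ↔ c = a ∨ c = b) : Nonempty (G.induce S ≃g pathGraph (1 + 1)) := by
  classical
  have hne := hab.ne
  let f : Fin 2 → S := ![⟨a, (hS a).2 (Or.inl rfl)⟩, ⟨b, (hS b).2 (Or.inr rfl)⟩]
  have hf : Function.Bijective f := by
    constructor
    · intro i j hij
      fin_cases i <;> fin_cases j <;> simp_all [f]
    · rintro ⟨c, hc⟩
      rcases (hS c).1 hc with rfl | rfl
      · exact ⟨0, rfl⟩
      · exact ⟨1, rfl⟩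
  refine ⟨RelIso.symm ⟨Equiv.ofBijective f hf, ?_⟩⟩
  intro i j
  show G.Adj (f i).1 (f j).1 ↔ (pathGraph 2).Adj i j
  rw [pathGraph_adj]
  fin_cases i <;> fin_cases j <;> simp [f, hab, hab.symm]

lemma SideCondition.key {S A B : Set V} (h : SideCondition G S A B)
    (hAB : ∀ x, x ∈ A → x ∈ B → False) (hS : S ⊆ A ∪ B) :
    ∃ a ∈ A, ∃ b ∈ B, G.Adj a b ∧ ∃ c ∈ S, c ≠ a ∧ c ≠ b := by
  obtain ⟨⟨n, p, hp⟩, h2⟩ := h
  have h2' := h2 n p hp
  obtain ⟨hpS, hpA, hpB, hint⟩ := hp
  have hn0 : n ≠ 0 := by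
    rintro rfl
    exact hAB _ hpA hpB
  have hn1 : n = 1 := by
    by_contra hn1
    have h3 : (⟨1, by omega⟩ : Fin (n + 1)) ≠ 0 := by
      intro h
      simp [Fin.ext_iff] at h
    have h4 : (⟨1, by omega⟩ : Fin (n + 1)) ≠ Fin.last n := by
      intro h
      simp [Fin.ext_iff] at h
      omega
    exact hint _ h3 h4 (hS (hpS _))
  subst hn1
  have hadj : G.Adj (p 0) (p (Fin.last 1)) := by
    rw [p.map_adj_iff, pathGraph_adj]
    simp
  refine ⟨_, hpA, _, hpB, hadj, ?_⟩
  by_contra hcon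
  push Not at hcon
  obtain ⟨φ⟩ := nonempty_iso_of_edge hadj (S := S) (by
    intro c
    constructor
    · intro hc
      by_contra hc'
      push Not at hc'
      exact hc'.2 (hcon c hc hc'.1)
    · rintro (rfl | rfl)
      · exact hpS _
      · exact hpS _)
  exact h2'.false φ

lemma HasTwoJoin.wtj (h : HasTwoJoin G) : ∃ V₁ V₂ A₁ B₁ A₂ B₂, WTJ G V₁ V₂ A₁ B₁ A₂ B₂ := by
  obtain ⟨V₁, V₂, A₁, B₁, A₂, B₂, hu, hd, a1, b1, a2, b2, ab1, ab2, na1, nb1, na2, nb2, hadj,
    s1, s2⟩ := h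
  refine ⟨V₁, V₂, A₁, B₁, A₂, B₂, ?_, ?_, a1, b1, a2, b2, ?_, ?_, na1, nb1, na2, nb2, hadj, ?_, ?_⟩
  · intro x
    have : x ∈ V₁ ∪ V₂ := hu ▸ Set.mem_univ x
    exact this
  · intro x h1 h2
    exact Set.disjoint_left.1 hd h1 h2
  · intro x h1 h2
    exact Set.disjoint_left.1 ab1 h1 h2
  · intro x h1 h2
    exact Set.disjoint_left.1 ab2 h1 h2
  · exact s1.key (fun x h1 h2 => Set.disjoint_left.1 ab1 h1 h2)
  · exact s2.key (fun x h1 h2 => Set.disjoint_left.1 ab2 h1 h2)

section
variable {V₁ V₂ A₁ B₁ A₂ B₂ : Set (DV m n)}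

/-- an adjacent pair of `C`-vertices across the 2-join, of type `A`: contradiction -/
lemma WTJ.false_of_cross (h : WTJ (DS M) V₁ V₂ A₁ B₁ A₂ B₂) (hn : 3 ≤ n)
    {j j' : Fin n} {t t' : Bool} (hjj : j ≠ j') (hx : (.inr (j, t) : DV m n) ∈ A₁)
    (hy : (.inr (j', t') : DV m n) ∈ A₂) : False := by
  -- half of the argument
  have half : ∀ {V₁ V₂ A₁ B₁ A₂ B₂ : Set (DV m n)} (h : WTJ (DS M) V₁ V₂ A₁ B₁ A₂ B₂)
      {j j' : Fin n} {t t' : Bool} (hjj : j ≠ j') (hx : (.inr (j, t) : DV m n) ∈ A₁)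
      (hy : (.inr (j', t') : DV m n) ∈ A₂) (k : Fin n) (hk : k ≠ j) (hk' : k ≠ j') (r : Bool),
      (.inr (k, r) : DV m n) ∈ V₁ := by
    clear h hjj hx hy
    intro V₁ V₂ A₁ B₁ A₂ B₂ h j j' t t' hjj hx hy k hk hk' r
    have hx1 := h.a1 hx
    have hy2 := h.a2 hy
    -- any vertex of `V₁` adjacent to `y` is in `A₁`
    have toA1 : ∀ z ∈ V₁, (DS M).Adj z (.inr (j', t')) → z ∈ A₁ := by
      intro z hz hz'
      rcases (h.adj z hz _ hy2).1 hz' with h1 | h1
      · exact h1.1
      · exact (h.ab2 _ hy h1.2).elim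
    have toA2 : ∀ z ∈ V₂, (DS M).Adj (.inr (j, t)) z → z ∈ A₂ := by
      intro z hz hz'
      rcases (h.adj _ hx1 z hz).1 hz' with h1 | h1
      · exact h1.2
      · exact (h.ab1 _ hx h1.1).elim
    -- the mate of `y` lies in `V₁`
    have hmate : (.inr (j', !t') : DV m n) ∈ V₁ := by
      obtain ⟨z, hz⟩ := h.nb1
      have hzA : z ∉ A₁ := fun h' => h.ab1 z h' hz
      have hz1 := h.b1 hz
      have hzy : ¬ (DS M).Adj z (.inr (j', t')) := fun h' => hzA (toA1 z hz1 h')
      rcases z with ⟨i, s⟩ | ⟨i, s⟩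
      · -- z in A, adjacent to the mate of y
        by_contra hcon
        have hc2 : (.inr (j', !t') : DV m n) ∈ V₂ := (h.union _).resolve_left hcon
        have hc3 := toA2 _ hc2 (by simp [hjj])
        have hadj : (DS M).Adj (.inl (i, s)) (.inr (j', !t')) := by
          simp only [adj_lr] at hzy ⊢
          revert hzy
          cases s <;> cases t' <;> cases M i j' <;> simp
        rcases (h.adj _ hz1 _ hc2).1 hadj with h1 | h1
        · exact hzA h1.1
        · exact h.ab2 _ hc3 h1.2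
      · have hij : i = j' := by
          by_contra hij
          exact hzy hij
        subst hij
        have hst : s = !t' := by
          have : s ≠ t' := by
            rintro rfl
            exact h.disj _ hz1 hy2
          revert this
          cases s <;> cases t' <;> simp
        rw [← hst]
        exact hz1
    by_contra hcon
    have hc2 : (.inr (k, r) : DV m n) ∈ V₂ := (h.union _).resolve_left hcon
    have hc3 := toA2 _ hc2 (by simp [hk.symm])
    have hadj : (DS M).Adj (.inr (j', !t')) (.inr (k, r)) := by simp [hk'.symm]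
    have hmA : (.inr (j', !t') : DV m n) ∈ A₁ := by
      rcases (h.adj _ hmate _ hc2).1 hadj with h1 | h1
      · exact h1.1
      · exact (h.ab2 _ hc3 h1.2).elim
    have := (h.adj _ hmate _ hy2).2 (Or.inl ⟨hmA, hy⟩)
    simp at this
  obtain ⟨k, hk, hk'⟩ : ∃ k : Fin n, k ≠ j ∧ k ≠ j' := by
    by_contra hcon
    push Not at hcon
    have : (Finset.univ : Finset (Fin n)) ⊆ {j, j'} := by
      intro k _
      by_cases h1 : k = j
      · simp [h1]
      · simp [hcon k h1]
    have h2 := Finset.card_le_card this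
    have h3 : ({j, j'} : Finset (Fin n)).card ≤ 2 := Finset.card_le_two
    simp only [Finset.card_univ, Fintype.card_fin] at h2
    omega
  have e1 := half h hjj hx hy k hk hk' true
  have e2 := half h.swapSides hjj.symm hy hx k hk' hk true
  exact h.disj _ e1 e2

/-- all of `C` on one side: contradiction -/
lemma WTJ.false_of_side (h : WTJ (DS M) V₁ V₂ A₁ B₁ A₂ B₂) (hn : 1 ≤ n)
    (hrow : ∀ i i', i ≠ i' → ∀ b : Bool, ∃ j, M i j ≠ (M i' j != b))
    (hC : ∀ p, (.inr p : DV m n) ∈ V₁) : False := by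
  have hsub : V₂ ⊆ A₂ ∪ B₂ := by
    rintro (⟨i, s⟩ | p) hz
    · have hadj : (DS M).Adj (.inr (⟨0, hn⟩, (s != M i ⟨0, hn⟩))) (.inl (i, s)) := by
        simp only [adj_rl]
        cases s <;> cases M i ⟨0, hn⟩ <;> rfl
      rcases (h.adj _ (hC _) _ hz).1 hadj with h1 | h1
      · exact Or.inl h1.2
      · exact Or.inr h1.2
    · exact (h.disj _ (hC p) hz).elim
  obtain ⟨a, ha, b, hb, hab, c, hc, hca, hcb⟩ := h.k2 hsub
  -- a symmetric statement
  have main : ∀ {A₁ B₁ A₂ B₂ : Set (DV m n)} (h : WTJ (DS M) V₁ V₂ A₁ B₁ A₂ B₂) (a c : DV m n),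
      a ∈ A₂ → c ∈ A₂ → a = c ∨ (DS M).Adj a c := by
    clear h ha hb hab hc hca hcb hsub
    intro A₁ B₁ A₂ B₂ h a c ha hc
    rcases a with ⟨i, s⟩ | p
    swap
    · exact (h.disj _ (hC p) (h.a2 ha)).elim
    rcases c with ⟨i', s'⟩ | p
    swap
    · exact (h.disj _ (hC p) (h.a2 hc)).elim
    by_cases hii : i = i'
    · subst hii
      by_cases hss : s = s'
      · subst hss
        exact Or.inl rfl
      · exact Or.inr ⟨rfl, hss⟩
    · exfalso
      obtain ⟨j, hj⟩ := hrow i i' hii (s != s')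
      have e1 : ∀ t : Bool, (DS M).Adj (.inr (j, t)) (.inl (i, s)) ↔
          (.inr (j, t) : DV m n) ∈ A₁ := by
        intro t
        rw [h.adj _ (hC _) _ (h.a2 ha)]
        constructor
        · rintro (h1 | h1)
          · exact h1.1
          · exact (h.ab2 _ ha h1.2).elim
        · intro h1
          exact Or.inl ⟨h1, ha⟩
      have e2 : ∀ t : Bool, (DS M).Adj (.inr (j, t)) (.inl (i', s')) ↔
          (.inr (j, t) : DV m n) ∈ A₁ := by
        intro t
        rw [h.adj _ (hC _) _ (h.a2 hc)]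
        constructor
        · rintro (h1 | h1)
          · exact h1.1
          · exact (h.ab2 _ hc h1.2).elim
        · intro h1
          exact Or.inl ⟨h1, hc⟩
      have e3 := (e1 true).trans (e2 true).symm
      simp only [adj_rl] at e3
      revert hj e3
      cases s <;> cases s' <;> cases M i j <;> cases M i' j <;> simp
  have hcC : c ∈ A₂ ∨ c ∈ B₂ := hsub hc
  -- `a`, `b` are mates; `c` is another vertex
  rcases hcC with hcA | hcB
  · rcases main h a c ha hcA with h1 | h1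
    · exact hca h1.symm
    · -- a adjacent to both b and c, all in A
      rcases a with ⟨i, s⟩ | p
      swap
      · exact (h.disj _ (hC p) (h.a2 ha)).elim
      rcases c with ⟨i', s'⟩ | p
      swap
      · exact (h.disj _ (hC p) hc).elim
      rcases b with ⟨i'', s''⟩ | p
      swap
      · exact (h.disj _ (hC p) (h.b2 hb)).elim
      simp only [adj_ll] at h1 hab
      obtain ⟨rfl, h1⟩ := h1
      obtain ⟨rfl, hab⟩ := hab
      apply hcb
      congr 2
      revert h1 hab
      cases s <;> cases s' <;> cases s'' <;> simp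
  · rcases main h.swapClasses b c hb hcB with h1 | h1
    · exact hcb h1.symm
    · rcases a with ⟨i, s⟩ | p
      swap
      · exact (h.disj _ (hC p) (h.a2 ha)).elim
      rcases c with ⟨i', s'⟩ | p
      swap
      · exact (h.disj _ (hC p) hc).elim
      rcases b with ⟨i'', s''⟩ | p
      swap
      · exact (h.disj _ (hC p) (h.b2 hb)).elim
      simp only [adj_ll] at h1 hab
      obtain ⟨rfl, h1⟩ := h1
      obtain ⟨rfl, hab⟩ := hab
      apply hca
      congr 2
      revert h1 hab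
      cases s <;> cases s' <;> cases s'' <;> simp

lemma WTJ.false (h : WTJ (DS M) V₁ V₂ A₁ B₁ A₂ B₂) (hn : 3 ≤ n)
    (hrow : ∀ i i', i ≠ i' → ∀ b : Bool, ∃ j, M i j ≠ (M i' j != b)) : False := by
  -- no adjacent pair of C-vertices crosses
  have cross : ∀ (j j' : Fin n) (t t' : Bool), j ≠ j' → (.inr (j, t) : DV m n) ∈ V₁ →
      (.inr (j', t') : DV m n) ∈ V₂ → False := by
    intro j j' t t' hjj h1 h2
    have hadj : (DS M).Adj (.inr (j, t)) (.inr (j', t')) := hjj
    rcases (h.adj _ h1 _ h2).1 hadj with h3 | h3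
    · exact h.false_of_cross hn hjj h3.1 h3.2
    · exact h.swapClasses.false_of_cross hn hjj h3.1 h3.2
  have cross' : ∀ (j j' : Fin n) (t t' : Bool), (.inr (j, t) : DV m n) ∈ V₁ →
      (.inr (j', t') : DV m n) ∈ V₂ → False := by
    intro j j' t t' h1 h2
    by_cases hjj : j = j'
    · subst hjj
      obtain ⟨k, hk⟩ : ∃ k : Fin n, k ≠ j := by
        have : Nontrivial (Fin n) := Fin.nontrivial_iff_two_le.2 (by omega)
        exact exists_ne j
      rcases h.union (.inr (k, true)) with h3 | h3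
      · exact cross k j true t' hk h3 h2
      · exact cross j k t true hk.symm h1 h3
    · exact cross j j' t t' hjj h1 h2
  rcases h.union (.inr (⟨0, by omega⟩, true)) with h0 | h0
  · apply h.false_of_side (by omega) hrow
    rintro ⟨j, t⟩
    rcases h.union (.inr (j, t)) with h1 | h1
    · exact h1
    · exact (cross' _ _ _ _ h0 h1).elim
  · apply h.swapSides.false_of_side (by omega) hrow
    rintro ⟨j, t⟩
    rcases h.union (.inr (j, t)) with h1 | h1
    · exact (cross' _ _ _ _ h1 h0).elim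
    · exact h1

end

lemma WTJ.of_iso {V V' : Type} {G : SimpleGraph V} {G' : SimpleGraph V'} (e : G ≃g G')
    {V₁ V₂ A₁ B₁ A₂ B₂ : Set V} (h : WTJ G V₁ V₂ A₁ B₁ A₂ B₂) :
    WTJ G' (e.symm ⁻¹' V₁) (e.symm ⁻¹' V₂) (e.symm ⁻¹' A₁) (e.symm ⁻¹' B₁) (e.symm ⁻¹' A₂)
      (e.symm ⁻¹' B₂) where
  union x := h.union (e.symm x)
  disj x := h.disj (e.symm x)
  a1 x hx := h.a1 hx
  b1 x hx := h.b1 hx
  a2 x hx := h.a2 hx
  b2 x hx := h.b2 hx
  ab1 x := h.ab1 (e.symm x)
  ab2 x := h.ab2 (e.symm x)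
  na1 := by
    obtain ⟨x, hx⟩ := h.na1
    exact ⟨e x, by simpa using hx⟩
  nb1 := by
    obtain ⟨x, hx⟩ := h.nb1
    exact ⟨e x, by simpa using hx⟩
  na2 := by
    obtain ⟨x, hx⟩ := h.na2
    exact ⟨e x, by simpa using hx⟩
  nb2 := by
    obtain ⟨x, hx⟩ := h.nb2
    exact ⟨e x, by simpa using hx⟩
  adj x hx y hy := by
    rw [← e.symm.map_adj_iff]
    exact h.adj _ hx _ hy
  k1 hs := by
    obtain ⟨a, ha, b, hb, hab, c, hc, hca, hcb⟩ := h.k1 (by
      intro x hx
      have := @hs (e x) (by simpa using hx)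
      simpa using this)
    refine ⟨e a, by simpa using ha, e b, by simpa using hb, (e.map_adj_iff).2 hab, e c,
      by simpa using hc, fun h' => hca (e.injective h'), fun h' => hcb (e.injective h')⟩
  k2 hs := by
    obtain ⟨a, ha, b, hb, hab, c, hc, hca, hcb⟩ := h.k2 (by
      intro x hx
      have := @hs (e x) (by simpa using hx)
      simpa using this)
    refine ⟨e a, by simpa using ha, e b, by simpa using hb, (e.map_adj_iff).2 hab, e c,
      by simpa using hc, fun h' => hca (e.injective h'), fun h' => hcb (e.injective h')⟩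

lemma not_hasTwoJoin (hn : 3 ≤ n)
    (hrow : ∀ i i', i ≠ i' → ∀ b : Bool, ∃ j, M i j ≠ (M i' j != b)) : ¬ HasTwoJoin (DS M) := by
  intro h
  obtain ⟨V₁, V₂, A₁, B₁, A₂, B₂, h⟩ := h.wtj
  exact h.false hn hrow

lemma not_hasTwoJoin_compl (hm : 3 ≤ m)
    (hcol : ∀ j j', j ≠ j' → ∀ b : Bool, ∃ i, M i j ≠ (M i j' != b)) :
    ¬ HasTwoJoin (DS M)ᶜ := by
  intro h
  obtain ⟨V₁, V₂, A₁, B₁, A₂, B₂, h⟩ := h.wtj
  refine (h.of_iso (complIso M)).false hm ?_
  intro j j' hjj b
  obtain ⟨i, hi⟩ := hcol j j' hjj b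
  refine ⟨i, fun h => hi ?_⟩
  revert h
  cases M i j <;> cases M i j' <;> cases b <;> simp

lemma not_lineGraph_compl (hm : 3 ≤ m) : ¬ IsLineGraphOfBipartite (DS M)ᶜ := by
  intro h
  exact not_lineGraph hm (h.of_iso (complIso M))

end Pool.Agent.MP_a9a483_co
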