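import Mathlib

/-!
Definitions for MP_a9a483_co (even-pair-free Berge graphs and 2-joins).
Chordless paths and holes are graph embeddings (`↪g`) of Mathlib's `pathGraph` and `cycleGraph`.
-/

namespace Pool.Agent.MP_a9a483_co

open SimpleGraph

/-- No induced odd hole and no induced odd antihole. -/
def IsBerge {V : Type} (G : SimpleGraph V) : Prop :=
  ∀ n : ℕ, 5 ≤ n → Odd n → IsEmpty (cycleGraph n ↪g G) ∧ IsEmpty ((cycleGraph n)ᶜ ↪g G)

/-- `x ≠ y` and every chordless path with ends `x` and `y` has an even number `n` of edges. -/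
def IsEvenPair {V : Type} (G : SimpleGraph V) (x y : V) : Prop :=
  x ≠ y ∧ ∀ (n : ℕ) (p : pathGraph (n + 1) ↪g G), p 0 = x → p (Fin.last n) = y → Even n

/-- No two vertices form an even pair. -/
def EvenPairFree {V : Type} (G : SimpleGraph V) : Prop :=
  ∀ x y : V, ¬ IsEvenPair G x y

/-- `G` is isomorphic to the line graph of a bipartite graph. -/
def IsLineGraphOfBipartite {V : Type} (G : SimpleGraph V) : Prop :=
  ∃ (W : Type) (H : SimpleGraph W), H.IsBipartite ∧ Nonempty (G ≃g H.lineGraph)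

/-- `p` is a chordless path of `G[S]` with first end in `A`, last end in `B` and no interior
vertex in `A ∪ B`. -/
def IsSidePath {V : Type} (G : SimpleGraph V) (S A B : Set V) (n : ℕ)
    (p : pathGraph (n + 1) ↪g G) : Prop :=
  (∀ i, p i ∈ S) ∧ p 0 ∈ A ∧ p (Fin.last n) ∈ B ∧
    ∀ i, i ≠ 0 → i ≠ Fin.last n → p i ∉ A ∪ B

/-- Condition (b) of a 2-join for one side: the set of side paths is nonempty and `G[S]` is not
isomorphic to any of them. -/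
def SideCondition {V : Type} (G : SimpleGraph V) (S A B : Set V) : Prop :=
  (∃ (n : ℕ) (p : pathGraph (n + 1) ↪g G), IsSidePath G S A B n p) ∧
    ∀ (n : ℕ) (p : pathGraph (n + 1) ↪g G), IsSidePath G S A B n p →
      IsEmpty (G.induce S ≃g pathGraph (n + 1))

/-- `G` has a 2-join. -/
def HasTwoJoin {V : Type} (G : SimpleGraph V) : Prop :=
  ∃ V₁ V₂ A₁ B₁ A₂ B₂ : Set V,
    V₁ ∪ V₂ = Set.univ ∧ Disjoint V₁ V₂ ∧
    A₁ ⊆ V₁ ∧ B₁ ⊆ V₁ ∧ A₂ ⊆ V₂ ∧ B₂ ⊆ V₂ ∧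
    Disjoint A₁ B₁ ∧ Disjoint A₂ B₂ ∧
    A₁.Nonempty ∧ B₁.Nonempty ∧ A₂.Nonempty ∧ B₂.Nonempty ∧
    (∀ x ∈ V₁, ∀ y ∈ V₂, G.Adj x y ↔ (x ∈ A₁ ∧ y ∈ A₂) ∨ (x ∈ B₁ ∧ y ∈ B₂)) ∧
    SideCondition G V₁ A₁ B₁ ∧ SideCondition G V₂ A₂ B₂

end Pool.Agent.MP_a9a483_co
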